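import Pool.Agent.helper99.WN.SpecA
import Pool.Agent.helper99.WN.Basic2

/-!
# Row wn:C3
-/

set_option autoImplicit false

open Classical

namespace Pool.Agent.WN

lemma C3_fw_append {k : ℕ} (W : ℤ → Lt k) (a i : ℤ) (u : List (Lt k)) :
    ∀ (q m : ℕ), fw W a q ++ u = fw W i m →
      m = q + u.length ∧ ∀ t : ℕ, t < q → W (a + t) = W (i + u.length + t) := by
  intro q
  induction q with
  | zero =>
    intro m h
    have h1 : u = fw W i m := h
    refine ⟨?_, fun t ht => absurd ht (Nat.not_lt_zero _)⟩
    have := congrArg List.length h1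
    rw [fw_length] at this
    omega
  | succ q ih =>
    intro m h
    cases m with
    | zero => exact absurd h (by simp [fw])
    | succ m =>
      have h1 : W (a + (q : ℤ)) :: (fw W a q ++ u) = W (i + (m : ℤ)) :: fw W i m := h
      rw [List.cons.injEq] at h1
      obtain ⟨h2, h3⟩ := ih m h1.2
      refine ⟨by omega, ?_⟩
      intro t ht
      rcases Nat.lt_succ_iff_lt_or_eq.1 ht with h4 | rfl
      · exact h3 t h4
      · rw [h1.1, h2]
        congr 1
        push_cast
        ring

lemma C3_fw_get {k : ℕ} (W : ℤ → Lt k) (i : ℤ) :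
    ∀ (m q : ℕ), q < m → (fw W i m)[q]? = some (W (i + m - 1 - q)) := by
  intro m
  induction m with
  | zero => intro q hq; exact absurd hq (Nat.not_lt_zero _)
  | succ m ih =>
    intro q hq
    show (W (i + (m : ℤ)) :: fw W i m)[q]? = _
    cases q with
    | zero =>
      rw [List.getElem?_cons_zero]
      congr 2
      push_cast; ring
    | succ q =>
      rw [List.getElem?_cons_succ, ih q (by omega)]
      congr 2
      push_cast; ring

/-- Row C3. -/
theorem C3 (hCC : CC_stmt) : C3_stmt := by
  intro V k R W N n hyp s z hne hstep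
  have hW := hyp.wd
  have hN := hW.pos
  set dn : ℤ → Prop := fun t => ∃ v u, Al R W N n v (W t :: u) ∧ z t = (v, u) ∧ z (t + 1) = (v, W t :: u) with hdn
  set up : ℤ → Prop := fun t => ∃ v u, Al R W N n v (iv (W t) :: u) ∧ z t = (v, iv (W t) :: u) ∧
    z (t + 1) = (v, u) with hup
  have hdd : ∀ t, s ≤ t → t + 1 < s + 2 * N → dn t → dn (t + 1) := by
    intro t ht1 ht2 hd
    rcases hstep (t + 1) (by omega) ht2 with h | h
    · exact h
    · exfalso
      obtain ⟨v, u, _, _, h1⟩ := hd
      obtain ⟨v', u', _, h2, _⟩ := h
      rw [h1, Prod.mk.injEq, List.cons.injEq] at h2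
      exact hW.red' t h2.2.1
  have hdq : ∀ (t : ℤ) (q : ℕ), s ≤ t → t + q < s + 2 * N → dn t → dn (t + q) := by
    intro t q
    induction q with
    | zero => intro _ _ h; simpa using h
    | succ q ih =>
      intro h1 h2 h3
      have h4 := ih h1 (by push_cast at h2; omega) h3
      have h5 := hdd (t + q) (by omega) (by push_cast at h2; omega) h4
      have h6 : t + ((q + 1 : ℕ) : ℤ) = t + q + 1 := by push_cast; ring
      rw [h6]; exact h5
  by_cases hcase : dn (s + N - 1)
  · -- N down steps
    set t1 : ℤ := s + N - 1 with ht1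
    obtain ⟨v, u, hal, hz, hz'⟩ := hcase
    have hall : ∀ q : ℕ, q < N → dn (t1 + q) := by
      intro q hq
      exact hdq t1 q (by omega) (by omega) ⟨v, u, hal, hz, hz'⟩
    have hinv : ∀ q : ℕ, q ≤ N → z (t1 + q) = (v, fw W t1 q ++ u) := by
      intro q
      induction q with
      | zero => intro _; simpa [fw] using hz
      | succ q ih =>
        intro hq
        obtain ⟨v', u', _, h1, h2⟩ := hall q (by omega)
        rw [ih (by omega), Prod.mk.injEq] at h1
        have h6 : t1 + ((q + 1 : ℕ) : ℤ) = t1 + q + 1 := by push_cast; ring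
        rw [h6, h2, ← h1.1, ← h1.2]
        rfl
    have hu : u ≠ [] := by
      have := hne t1 (by omega) (by omega)
      rw [hz] at this
      exact this
    have hupos : 0 < u.length := List.length_pos_iff.2 hu
    obtain ⟨M, hM⟩ : ∃ M, N = M + 1 := ⟨N - 1, by omega⟩
    have halN : Al R W N n v (fw W t1 N ++ u) := by
      obtain ⟨v', u', h0, h1, h2⟩ := hall M (by omega)
      rw [hinv M (by omega), Prod.mk.injEq] at h1
      rw [← h1.1, ← h1.2] at h0
      have : fw W t1 N ++ u = W (t1 + M) :: (fw W t1 M ++ u) := by
        rw [hM]; rfl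
      rw [this]
      exact h0
    obtain ⟨_, _, h1 | ⟨i, m, y, l, h2, h3, h4⟩⟩ := halN
    · rw [List.length_append, fw_length] at h1
      omega
    · obtain ⟨h5, h6⟩ := C3_fw_append W t1 i u N m h3
      have h7 := hW.pa t1 (i + u.length) h6
      refine ⟨t1 + N, by omega, by omega, ?_⟩
      have h8 := (hCC V k R W N n hyp).2 v i y l m h2 h4
      rw [hinv N le_rfl, h3]
      apply ClAt.of_dvd hW h8
      rw [h5]
      push_cast
      have : t1 + N - (i + (N + u.length)) = t1 - (i + u.length) := by ring
      rw [this]
      exact h7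
  · -- N up steps
    exfalso
    have hall : ∀ q : ℕ, q < N → up (s + q) := by
      intro q hq
      rcases hstep (s + q) (by omega) (by omega) with h | h
      · exfalso
        apply hcase
        have h1 := hdq (s + q) (N - 1 - q) (by omega) (by omega) h
        have h2 : s + q + ((N - 1 - q : ℕ) : ℤ) = s + N - 1 := by omega
        rw [h2] at h1
        exact h1
      · exact h
    have hinv : ∀ q : ℕ, q ≤ N → (z (s + q)).2 = (z s).2.drop q ∧
        ∀ q', q' < q → (z s).2[q']? = some (iv (W (s + q'))) := by
      intro q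
      induction q with
      | zero => intro _; simp
      | succ q ih =>
        intro hq
        obtain ⟨h1, h2⟩ := ih (by omega)
        obtain ⟨v', u', _, h3, h4⟩ := hall q (by omega)
        rw [h3] at h1
        have h5 : iv (W (s + q)) :: u' = (z s).2.drop q := h1
        have h6 : s + ((q + 1 : ℕ) : ℤ) = s + q + 1 := by push_cast; ring
        refine ⟨?_, ?_⟩
        · rw [h6, h4, ← List.tail_drop, ← h5]
          rfl
        · intro q' hq'
          rcases Nat.lt_succ_iff_lt_or_eq.1 hq' with h7 | rfl
          · exact h2 q' h7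
          · have h8 : ((z s).2.drop q')[0]? = some (iv (W (s + q'))) := by
              rw [← h5]; rfl
            rw [List.getElem?_drop] at h8
            simpa using h8
    obtain ⟨h1, h2⟩ := hinv N le_rfl
    have h3 : (z (s + N)).2 ≠ [] := hne (s + N) (by omega) (by omega)
    rw [h1] at h3
    have h4 : N < (z s).2.length := by
      by_contra h5
      exact h3 (List.drop_eq_nil_of_le (by omega))
    obtain ⟨v, u, hal, hz, _⟩ := hall 0 hN
    simp only [Nat.cast_zero, add_zero] at hal hz
    have hz2 : (z s).2 = iv (W s) :: u := by rw [hz]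
    rw [← hz2] at hal
    obtain ⟨_, _, h5 | ⟨i, m, y, l, _, h6, _⟩⟩ := hal
    · omega
    · have h7 : m = (z s).2.length := by rw [h6, fw_length]
      apply hW.pb s (i + m - 1)
      intro t ht
      have h8 := h2 t ht
      rw [h6, C3_fw_get W i m t (by omega)] at h8
      have h9 := Option.some.inj h8
      rw [h9, iv_iv]

end Pool.Agent.WN
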